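import Mathlib

set_option autoImplicit false

namespace Pool.Agent.Results.MP_5a34df_al.Cex

open Matrix

def c : Fin 3 → Fin 3 → Fin 7 := ![![0, 1, 2], ![3, 4, 1], ![5, 6, 0]]

def sp (K : Type*) [Field K] (P : Fin 7 → Prop) : Submodule K (Matrix (Fin 3) (Fin 3) K) where
  carrier := {M | ∀ i j, P (c i j) → M i j = 0}
  add_mem' ha hb i j h := by simp [ha i j h, hb i j h]
  zero_mem' _ _ _ := rfl
  smul_mem' a _ hx i j h := by simp [hx i j h]

def op : Fin 7 → Fin 7 → Fin 7 := ![![0, 1, 2, 0, 0, 5, 6],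
  ![1, 2, 0, 0, 1, 3, 4],
  ![2, 0, 0, 0, 0, 0, 1],
  ![3, 4, 1, 0, 0, 0, 0],
  ![0, 1, 0, 3, 4, 0, 0],
  ![5, 6, 0, 0, 0, 0, 0],
  ![0, 0, 0, 5, 6, 0, 0]]

theorem op_c : ∀ i j k, op (c i j) (c j k) = c i k := by decide

universe u

theorem result (K : Type*) [Field K] :
    ∃ (A : Fin 7 → Submodule K (Matrix (Fin 3) (Fin 3) K)) (op : Fin 7 → Fin 7 → Fin 7),
      DirectSum.IsInternal A ∧ (∀ g, A g ≠ ⊥) ∧ (∀ g h, A g * A h ≤ A (op g h)) ∧
      ∀ (S : Type u) [Semigroup S] (ι : Fin 7 → S), Function.Injective ι →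
        ¬ ∀ g h, A g * A h ≠ ⊥ → ι (op g h) = ι g * ι h := by
  have hs : ∀ i j, single i j (1 : K) ∈ sp K (· ≠ c i j) := fun i j a b h => by
    rw [single_apply, if_neg]
    rintro ⟨rfl, rfl⟩
    exact h rfl
  have h1 : ∀ i j : Fin 3, single i j (1 : K) ≠ 0 := fun i j h => by
    simpa using congrFun (congrFun h i) j
  refine ⟨fun g => sp K (· ≠ g), op,
    DirectSum.isInternal_submodule_of_iSupIndep_of_iSup_eq_top (fun g => ?_) ?_,
    fun g h => ?_, fun g h => Submodule.mul_le.2 fun M hM N hN i k hik => ?_, fun S _ ι hι h => ?_⟩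
  · refine Disjoint.mono_right (c := sp K (· = g))
      (iSup₂_le fun h hh M hM i j e => hM i j (e ▸ hh.symm)) ?_
    refine Submodule.disjoint_def.2 fun M h1 h2 => Matrix.ext fun i j => ?_
    by_cases e : c i j = g
    exacts [h2 i j e, h1 i j e]
  · refine eq_top_iff.2 fun M _ => ?_
    rw [matrix_eq_sum_single M]
    refine Submodule.sum_mem _ fun i _ => Submodule.sum_mem _ fun j _ => ?_
    rw [← mul_one (M i j), ← smul_eq_mul, ← smul_single]
    exact Submodule.smul_mem _ _ (Submodule.mem_iSup_of_mem (c i j) (hs i j))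
  · obtain ⟨i, j, rfl⟩ : ∃ i j, c i j = g := by clear h; revert g; decide
    exact h1 i j ((Submodule.eq_bot_iff _).1 h _ (hs i j))
  · rw [mul_apply]
    refine Finset.sum_eq_zero fun j _ => ?_
    by_cases e : c i j = g
    · rw [hN j k fun e' => hik (by rw [← e, ← e', op_c]), mul_zero]
    · rw [hM i j e, zero_mul]
  · have H : ∀ i j k, ι (c i k) = ι (c i j) * ι (c j k) := fun i j k => by
      rw [← op_c i j k]
      refine h _ _ fun e => h1 i k ((Submodule.eq_bot_iff _).1 e _ ?_)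
      have := Submodule.mul_mem_mul (hs i j) (hs j k)
      rwa [single_mul_single_same, mul_one] at this
    have a1 : ι 0 = ι 1 * ι 3 := H 0 1 0
    have a2 : ι 4 = ι 3 * ι 1 := H 1 0 1
    have a3 : ι 1 = ι 4 * ι 1 := H 1 1 2
    have a4 : ι 1 = ι 1 * ι 0 := H 1 2 2
    have : ι 0 = ι 4 := by
      calc ι 0 = ι 4 * ι 0 := by rw [a1, ← mul_assoc, ← a3]
        _ = ι 4 := by rw [a2, mul_assoc, ← a4]
    exact absurd (hι this) (by decide)

end Pool.Agent.Results.MP_5a34df_al.Cex
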